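import Mathlib
import Pool.Graph.R_seed8.R987.BKR
import Pool.Graph.R_seed8.R987.BKRPow

/-!
# One set whose bracketed powers, of all orders up to `R`, are pairwise different

For every `R` there is a set `A` of points of a discrete cube such that the values of all the
bracketings with at most `R` leaves (all the letters being `A`) are nonempty, two of them are equal
only if the bracketings are equivalent, and the values of inequivalent bracketings with the same
number of leaves are incomparable (neither of them is contained in the other one).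
-/

set_option autoImplicit false

open Set

namespace Pool.Agent.Results.MP_2d934b_pr.AllPowersAtOnce

open Pool.Agent.R987.BKR Pool.Agent.R987.BKRPow

/-- The nondegenerate triples in `D`. -/
noncomputable def nd {r : ℕ} (D : Finset (Trip r)) : Finset (Trip r) := by
  classical exact D.filter Nondeg

theorem mem_nd {r : ℕ} (D : Finset (Trip r)) (τ : Trip r) : τ ∈ nd D ↔ τ ∈ D ∧ Nondeg τ := by
  simp [nd]

/-- The triples which are joined by `t` in the right order. -/
noncomputable def DT (r : ℕ) (t : Bracketing) : Finset (Trip r) := by
  classical exact Finset.univ.filter fun τ => disp t 0 τ.1 τ.2.1 τ.2.2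

theorem mem_DT {r : ℕ} (t : Bracketing) (τ : Trip r) :
    τ ∈ DT r t ↔ disp t 0 τ.1 τ.2.1 τ.2.2 := by
  simp [DT]

/-- The tags of the first `m` labels are on, and every triple is in its initial state. -/
def start (r m : ℕ) : Crd r → Bool
  | Sum.inl q => if q.2 = 2 then false else true
  | Sum.inr i => decide (i.1 < m)

theorem nd_DT {r : ℕ} (t : Bracketing) : nd (DT r t) = DT r t := by
  ext τ
  rw [mem_nd]
  constructor
  · exact fun h => h.1
  · intro h
    refine ⟨h, ?_⟩
    have := disp_spec t 0 _ _ _ ((mem_DT t τ).1 h)
    refine ⟨fun h1 => ?_, fun h1 => ?_, fun h1 => ?_⟩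
    · exact this.1 (congrArg Fin.val h1)
    · exact this.2.1 (congrArg Fin.val h1)
    · exact this.2.2.1 (congrArg Fin.val h1)

theorem tg_start {r m : ℕ} : tg (start r m) = seg r 0 m := by
  ext i
  rw [mem_tg, mem_seg]
  simp [start]

theorem start_mem {r : ℕ} (t : Bracketing) (ht : t.size ≤ r) :
    start r t.size ∈ pow (AD (DT r t)) t := by
  refine wins t 0 (start r t.size) (by omega) (fun i hi => ?_) ?_ ?_ ?_
  · rw [mem_seg] at hi
    simp only [start, decide_eq_true_eq]
    omega
  · intro τ hτ _ _
    exact (mem_DT t τ).1 hτ
  · intro τ hτ _ _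
    exact (mem_DT t τ).1 hτ
  · intro τ hτ
    refine ⟨fun _ _ => ?_, fun _ _ _ => ?_, fun _ => Or.inl ?_, fun _ => Or.inr (Or.inl ?_),
      fun _ => Or.inl ?_⟩ <;> simp [start]

theorem start_forces {r : ℕ} (t t' : Bracketing) (ht : t.size ≤ r) (ht' : t'.size = t.size)
    (h : start r t.size ∈ pow (AD (DT r t)) t') : Same t' t := by
  refine forced (D := DT r t) ?_ t 0 t' (start r t.size) (by omega) ?_ (by omega) ?_ ?_ h
  · intro τ hτ
    rw [← nd_DT] at hτ
    exact ((mem_nd _ _).1 hτ).2
  · intro τ hτ
    exact (mem_DT t τ).2 hτ
  · exact tg_start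
  · intro τ _
    refine ⟨?_, ?_, ?_⟩ <;> simp [start]

theorem start_size {r : ℕ} {D : Finset (Trip r)} (t' : Bracketing) {m : ℕ} (hm : m ≤ r)
    (h : start r m ∈ pow (AD D) t') : t'.size ≤ m := by
  have h1 := card_tg t' _ h
  rwa [tg_start, card_seg (by omega)] at h1

/-- The values of all bracketings with at most `r` leaves are nonempty. -/
theorem pow_nonempty_le {r : ℕ} {D : Finset (Trip r)} (hnd : ∀ τ ∈ D, Nondeg τ) (t : Bracketing)
    (ht : t.size ≤ r) : (pow (AD D) t).Nonempty := by
  refine ⟨fun _ => true, ones_mem hnd t (seg r 0 t.size) _ (card_seg (by omega)) fun _ _ => rfl⟩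

/-- **One set for all powers up to the order `R`.** For every `R` there are `d ≥ 1` and a set `A` in
the cube `{0,1}^d` such that for all bracketings `t`, `t'` with at most `R` leaves (with the same or
with different numbers of leaves), all leaves being labelled `A`:
the value of `t` is nonempty; `t` and `t'` have the same value if and only if they are equivalent;
and if `t'` has at least as many leaves as `t`, then the value of `t` is contained in the value of
`t'` only if `t` and `t'` are equivalent. In particular the values of inequivalent bracketings with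
the same number of leaves are incomparable. -/
theorem result (R : ℕ) : ∃ (d : ℕ) (_ : 1 ≤ d) (A : Set (Fin d → Bool)), ∀ t t' : Bracketing,
    t.size ≤ R → t'.size ≤ R →
      (pow A t).Nonempty ∧ (pow A t = pow A t' ↔ Same t t') ∧
      (t.size ≤ t'.size → pow A t ⊆ pow A t' → Same t t') := by
  classical
  let r := R + 1
  let e : Finset (Trip r) × Crd r ≃ Fin (Fintype.card (Finset (Trip r) × Crd r)) :=
    Fintype.equivFin _
  have hcard : 1 ≤ Fintype.card (Finset (Trip r) × Crd r) := by
    have : Nonempty (Finset (Trip r) × Crd r) := ⟨(∅, Sum.inr ⟨0, by omega⟩)⟩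
    exact Fintype.card_pos
  refine ⟨_, hcard, ren e (prodSet fun D => AD (nd D)), ?_⟩
  have key : ∀ t t' : Bracketing, t.size ≤ R → t.size ≤ t'.size →
      pow (ren e (prodSet fun D => AD (nd D))) t ⊆ pow (ren e (prodSet fun D => AD (nd D))) t' →
      Same t t' := by
    intro t t' ht htt h
    rw [pow_ren, pow_ren, pow_prodSet, pow_prodSet] at h
    have hne : ∀ D : Finset (Trip r), (pow (AD (nd D)) t).Nonempty := fun D =>
      pow_nonempty_le (fun τ hτ => ((mem_nd D τ).1 hτ).2) t (by omega)
    choose z hz using hne
    let x : Finset (Trip r) × Crd r → Bool := fun s =>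
      if s.1 = DT r t then start r t.size s.2 else z s.1 s.2
    have hx : x ∈ prodSet fun D => pow (AD (nd D)) t := by
      intro D
      change (fun i => x (D, i)) ∈ pow (AD (nd D)) t
      by_cases hD : D = DT r t
      · subst hD
        simp only [x, if_true]
        rw [nd_DT]
        exact start_mem t (by omega)
      · simp only [x, hD, if_false]
        exact hz D
    have hx2 : (fun k => x (e.symm k)) ∈ ren e (prodSet fun D => pow (AD (nd D)) t) := by
      simpa [ren] using hx
    have hx3 := h hx2
    have hx4 : x ∈ prodSet fun D => pow (AD (nd D)) t' := by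
      simpa [ren] using hx3
    have h2 : (fun i => x (DT r t, i)) ∈ pow (AD (nd (DT r t))) t' := hx4 (DT r t)
    rw [nd_DT] at h2
    simp only [x, if_true] at h2
    have h3 := start_size t' (by omega : t.size ≤ r) h2
    exact (start_forces t t' (by omega) (by omega) h2).symm
  intro t t' ht ht'
  refine ⟨?_, ⟨fun h => ?_, pow_same _⟩, key t t' ht⟩
  · have hne : ∀ D : Finset (Trip r), (pow (AD (nd D)) t).Nonempty := fun D =>
      pow_nonempty_le (fun τ hτ => ((mem_nd D τ).1 hτ).2) t (by omega)
    choose z hz using hne
    rw [pow_ren, pow_prodSet]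
    refine ⟨fun k => z (e.symm k).1 (e.symm k).2, ?_⟩
    have : (fun s : Finset (Trip r) × Crd r => z s.1 s.2) ∈ prodSet fun D => pow (AD (nd D)) t :=
      fun D => hz D
    simpa [ren] using this
  · rcases le_total t.size t'.size with hs | hs
    · exact key t t' ht hs h.subset
    · exact (key t' t ht' hs h.symm.subset).symm

end Pool.Agent.Results.MP_2d934b_pr.AllPowersAtOnce
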